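import Pool.Agent.helper86.BK.Spec2
import Pool.Agent.helper87.BK.WIN

/-!
# Project bk, module WI2: windows for arbitrary sets of moduli
-/

set_option autoImplicit false

namespace Pool.Agent.BK

open Finset

theorem WI2 : WI2_stmt := by
  intro c hc hc1 hWK α hα hα1 ε hε
  set ε' : ℝ := min (ε / 4) ((1 - α) / 4) with hε'
  have hε'pos : 0 < ε' := lt_min (by linarith) (by linarith)
  have hε'1 : ε' ≤ ε / 4 := min_le_left _ _
  have hε'2 : ε' ≤ (1 - α) / 4 := min_le_right _ _
  obtain ⟨δ, hδ, hδε, m₀, hm₀⟩ := hWK ε' hε'pos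
  obtain ⟨N₁, hN₁⟩ := WIN_large (ε / 4) (m₀ + 1) (by linarith)
  obtain ⟨N₂, hN₂⟩ := WIN_large (ε / 2) 12 (by linarith)
  obtain ⟨N₃, hN₃⟩ := WIN_large (3 * (1 - α) / 4) 12 (by linarith)
  refine ⟨max (max N₁ N₂) (max N₃ 1), ?_⟩
  intro N hN X hX hXN Q hQ a
  have hNN₁ : N₁ ≤ N := le_trans (le_trans (le_max_left _ _) (le_max_left _ _)) hN
  have hNN₂ : N₂ ≤ N := le_trans (le_trans (le_max_right _ _) (le_max_left _ _)) hN
  have hNN₃ : N₃ ≤ N := le_trans (le_trans (le_max_left _ _) (le_max_right _ _)) hN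
  have hN1 : 1 ≤ N := le_trans (le_trans (le_max_right _ _) (le_max_right _ _)) hN
  have hNr : (1 : ℝ) ≤ N := by exact_mod_cast hN1
  have hN0 : (0 : ℝ) < N := by linarith
  have hXr : (1 : ℝ) ≤ X := by exact_mod_cast hX
  have hX0 : (0 : ℝ) < X := by linarith
  set P : ℝ := (N : ℝ) ^ α with hP
  have hP1 : 1 ≤ P := Real.one_le_rpow hNr hα.le
  have hP12 : P * 12 ≤ N := by
    have h1 : P * (N : ℝ) ^ (3 * (1 - α) / 4) ≤ N := by
      rw [hP, ← Real.rpow_add hN0]
      calc (N : ℝ) ^ (α + 3 * (1 - α) / 4) ≤ (N : ℝ) ^ (1 : ℝ) := by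
            apply Real.rpow_le_rpow_of_exponent_le hNr
            linarith
        _ = N := Real.rpow_one _
    refine le_trans ?_ h1
    gcongr
    exact hN₃ N hNN₃
  -- the number of moduli
  set m : ℕ := Q.card with hm
  rcases Nat.eq_zero_or_pos m with hm0 | hmpos
  · rw [hm0, Nat.cast_zero, Real.zero_rpow (by linarith), mul_zero, zero_div]
    positivity
  have hmr : (1 : ℝ) ≤ m := by exact_mod_cast hmpos
  have hm0 : (0 : ℝ) < m := by linarith
  have hmX : m ≤ X := by
    have h1 : Q ⊆ Finset.Ico X (2 * X) := fun q hq => Finset.mem_Ico.2 (hQ q hq)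
    have h2 := Finset.card_le_card h1
    rw [Nat.card_Ico] at h2
    omega
  have hmXr : (m : ℝ) ≤ X := by exact_mod_cast hmX
  have hmP : (m : ℝ) ≤ P := hmXr.trans hXN
  have hmN : (m : ℝ) ≤ N := by linarith
  rcases le_or_gt (m : ℝ) ((N : ℝ) ^ (ε / 4)) with hsmall | hbig
  · -- one class
    obtain ⟨q, hq⟩ := Finset.card_pos.1 hmpos
    obtain ⟨hq1, hq2⟩ := hQ q hq
    set J : ℕ := N / (2 * X) with hJ
    have hJW : J * (2 * X) ≤ N := Nat.div_mul_le_self _ _
    have hJlow : (N : ℝ) / (4 * X) ≤ J := by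
      have h1 : (N : ℝ) < (J + 1) * (2 * X) := by
        have : N < (J + 1) * (2 * X) := by
          rw [hJ, mul_comm]
          exact Nat.lt_mul_div_succ N (by omega)
        exact_mod_cast this
      rw [div_le_iff₀ (by positivity)]
      nlinarith
    have hsum := WIN_sum Q a N (2 * X) J hJW 1 (by
      intro i _ B hB
      have h1 := WIN_window (2 * X) 1 {q} a (2 * X) i
        (by
          intro q' hq'
          rw [Finset.mem_singleton] at hq'
          subst hq'
          constructor <;> omega)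
        (by simp) B (by
          intro n h1 h2 h3
          apply hB n h1 h2
          obtain ⟨q', hq', h4⟩ := h3
          rw [Finset.mem_singleton] at hq'
          subst hq'
          exact ⟨q', hq, h4⟩) q (Finset.mem_singleton_self q)
      obtain ⟨b, hb⟩ := h1
      have h2 := hb 0 (by norm_num)
      have h3 : 1 ≤ B.card := Finset.card_pos.2 ⟨_, h2⟩
      exact_mod_cast h3)
    refine le_trans ?_ hsum
    rw [mul_one]
    refine le_trans ?_ hJlow
    have h1 : (m : ℝ) ^ (1 - c) ≤ (N : ℝ) ^ (ε / 4) := by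
      calc (m : ℝ) ^ (1 - c) ≤ (m : ℝ) ^ (1 : ℝ) :=
            Real.rpow_le_rpow_of_exponent_le hmr (by linarith)
        _ = m := Real.rpow_one _
        _ ≤ (N : ℝ) ^ (ε / 4) := hsmall
    have h2 : (N : ℝ) ^ (1 - ε) * (N : ℝ) ^ (ε / 4) * 4 ≤ N := by
      calc (N : ℝ) ^ (1 - ε) * (N : ℝ) ^ (ε / 4) * 4
          ≤ (N : ℝ) ^ (1 - ε) * (N : ℝ) ^ (ε / 4) * (N : ℝ) ^ (ε / 2) := by
            gcongr
            have := hN₂ N hNN₂
            linarith
        _ = (N : ℝ) ^ (1 - ε + ε / 4 + ε / 2) := by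
            rw [Real.rpow_add hN0, Real.rpow_add hN0]
        _ ≤ (N : ℝ) ^ (1 : ℝ) := by
            apply Real.rpow_le_rpow_of_exponent_le hNr
            linarith
        _ = N := Real.rpow_one _
    calc (N : ℝ) ^ (1 - ε) * (m : ℝ) ^ (1 - c) / X
        ≤ (N : ℝ) ^ (1 - ε) * (N : ℝ) ^ (ε / 4) / X := by gcongr
      _ = (N : ℝ) ^ (1 - ε) * (N : ℝ) ^ (ε / 4) * 4 / (4 * X) := by
          field_simp
      _ ≤ N / (4 * X) := by gcongr
  · -- many classes
    set x : ℝ := (m : ℝ) ^ δ with hx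
    have hx1 : 1 ≤ x := Real.one_le_rpow hmr hδ.le
    have hx0 : 0 < x := by linarith
    set W : ℕ := 2 * X * (⌈x⌉₊ + 1) with hW
    have hWx : (W : ℝ) ≤ 6 * (X * x) := by
      have h1 := (Nat.ceil_lt_add_one (show 0 ≤ x by linarith)).le
      rw [hW]
      push_cast
      calc 2 * (X : ℝ) * (⌈x⌉₊ + 1) ≤ 2 * X * (3 * x) := by
            gcongr
            linarith
        _ = 6 * (X * x) := by ring
    have hWpos : 0 < W := by
      rw [hW]
      positivity
    have hWr : (0 : ℝ) < W := by exact_mod_cast hWpos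
    have h2W : 2 * (W : ℝ) ≤ N := by
      have h1 : (X : ℝ) * x ≤ (N : ℝ) ^ (α + δ) := by
        rw [Real.rpow_add hN0]
        apply mul_le_mul hXN _ hx0.le (by positivity)
        exact Real.rpow_le_rpow hm0.le hmN hδ.le
      have h2 : (N : ℝ) ^ (α + δ) * (N : ℝ) ^ (3 * (1 - α) / 4) ≤ N := by
        rw [← Real.rpow_add hN0]
        calc (N : ℝ) ^ (α + δ + 3 * (1 - α) / 4) ≤ (N : ℝ) ^ (1 : ℝ) := by
              apply Real.rpow_le_rpow_of_exponent_le hNr
              linarith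
          _ = N := Real.rpow_one _
      have h4 := hN₃ N hNN₃
      have h5 : (N : ℝ) ^ (α + δ) * 12 ≤ N := by
        refine le_trans ?_ h2
        gcongr
      linarith
    set J : ℕ := N / W with hJ
    have hJW : J * W ≤ N := Nat.div_mul_le_self _ _
    have hJlow : (N : ℝ) / (2 * W) ≤ J := by
      have h1 : (N : ℝ) < (J + 1) * W := by
        have : N < (J + 1) * W := by
          rw [hJ, mul_comm]
          exact Nat.lt_mul_div_succ N hWpos
        exact_mod_cast this
      rw [div_le_iff₀ (by positivity)]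
      nlinarith
    have hmm₀ : m₀ ≤ m := by
      have h1 := hN₁ N hNN₁
      have : (m₀ : ℝ) ≤ m := by linarith
      exact_mod_cast this
    have hD : (Q.image (Nat.cast : ℕ → ℤ)).card = m :=
      Finset.card_image_of_injective _ Nat.cast_injective
    have hsum := WIN_sum Q a N W J hJW ((m : ℝ) ^ (1 - c - ε')) (by
      intro i _ B hB
      have h1 := WIN_window (2 * X) x Q a W i
        (fun q hq => by
          have := hQ q hq
          constructor <;> omega)
        (by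
          rw [hW]
          exact Nat.mul_le_mul_left _ (Nat.le_succ _)) B hB
      have h2 := hm₀ (Q.image (Nat.cast : ℕ → ℤ)) (by rw [hD]; exact hmm₀) B (by
        intro d hd
        rw [Finset.mem_image] at hd
        obtain ⟨q, hq, rfl⟩ := hd
        obtain ⟨b, hb⟩ := h1 q hq
        refine ⟨b, fun k hk => hb k ?_⟩
        rwa [hD] at hk)
      rwa [hD] at h2)
    refine le_trans ?_ hsum
    have h1 : (m : ℝ) ^ (1 - c - ε') * (m : ℝ) ^ (ε' + δ) = x * (m : ℝ) ^ (1 - c) := by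
      rw [hx, ← Real.rpow_add hm0, ← Real.rpow_add hm0]
      congr 1
      ring
    have h2 : (m : ℝ) ^ (ε' + δ) ≤ (N : ℝ) ^ (ε / 2) := by
      calc (m : ℝ) ^ (ε' + δ) ≤ (N : ℝ) ^ (ε' + δ) :=
            Real.rpow_le_rpow hm0.le hmN (by linarith)
        _ ≤ (N : ℝ) ^ (ε / 2) :=
            Real.rpow_le_rpow_of_exponent_le hNr (by linarith)
    have h3 : (N : ℝ) ^ (1 - ε) * (N : ℝ) ^ (ε / 2) * 12 ≤ N := by
      calc (N : ℝ) ^ (1 - ε) * (N : ℝ) ^ (ε / 2) * 12
          ≤ (N : ℝ) ^ (1 - ε) * (N : ℝ) ^ (ε / 2) * (N : ℝ) ^ (ε / 2) := by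
            gcongr
            exact hN₂ N hNN₂
        _ = (N : ℝ) ^ (1 - ε + ε / 2 + ε / 2) := by
            rw [Real.rpow_add hN0, Real.rpow_add hN0]
        _ ≤ (N : ℝ) ^ (1 : ℝ) := by
            apply Real.rpow_le_rpow_of_exponent_le hNr
            linarith
        _ = N := Real.rpow_one _
    have h4 : 0 < (m : ℝ) ^ (1 - c - ε') := by positivity
    calc (N : ℝ) ^ (1 - ε) * (m : ℝ) ^ (1 - c) / X
        = (N : ℝ) ^ (1 - ε) * (x * (m : ℝ) ^ (1 - c)) / (X * x) := by
          field_simp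
      _ = (N : ℝ) ^ (1 - ε) * ((m : ℝ) ^ (1 - c - ε') * (m : ℝ) ^ (ε' + δ)) / (X * x) := by
          rw [h1]
      _ ≤ (N : ℝ) ^ (1 - ε) * ((m : ℝ) ^ (1 - c - ε') * (N : ℝ) ^ (ε / 2)) / (X * x) := by
          gcongr
      _ = (N : ℝ) ^ (1 - ε) * (N : ℝ) ^ (ε / 2) * 12 / (2 * (6 * (X * x)))
            * (m : ℝ) ^ (1 - c - ε') := by
          field_simp
          ring
      _ ≤ N / (2 * (6 * (X * x))) * (m : ℝ) ^ (1 - c - ε') := by gcongr
      _ ≤ N / (2 * W) * (m : ℝ) ^ (1 - c - ε') := by gcongr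
      _ ≤ J * (m : ℝ) ^ (1 - c - ε') := by gcongr

end Pool.Agent.BK
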